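import Pool.Agent.H24.Idx5

set_option autoImplicit false

open Pool.Agent.H24.Idx

/-- There is an algorithm that, given an indexed grammar, outputs a test set for its language. -/
theorem Pool.Agent.Results.MP_8ee1cf_lc.Effective.result :
    ∃ f : IG → List (List ℕ), Computable f ∧ ∀ G, IsTestSet (ILang G) (f G) :=
  eff
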